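import Pool.Agent.MJ6.Final

/-! For the neighbourhoods formed by three equally spaced integers (such as the nearest neighbour
rule) the noisy majority voting is ergodic whenever at least one of the two noise rates is at least
`1 / 20`. The conclusion is the one of the frozen statement, word for word. -/

namespace Pool.Agent.Results.MP_101c18_pr.FivePercentNoise

theorem result :
    ∀ (N : Finset ℤ) (c p : ℤ), 0 < p → N = {c - p, c, c + p} →
      ∀ ε δ : ℝ, 0 < ε → 0 < δ → ε + δ ≤ 1 → 1 / 20 ≤ max ε δ →
      ∃ ν : MeasureTheory.Measure (ℤ → Bool), MeasureTheory.IsProbabilityMeasure ν ∧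
        ∀ μ : ℕ → MeasureTheory.Measure (ℤ → Bool),
          (∀ t, MeasureTheory.IsProbabilityMeasure (μ t)) →
          (∀ (t : ℕ) (S : Finset ℤ) (a : ℤ → Bool),
            (μ (t + 1)).real {y : ℤ → Bool | ∀ i ∈ S, y i = a i} =
              ∫ x, (∏ i ∈ S,
                (if N.card < 2 * (N.filter (fun j => x (i + j) = true)).card
                  then (if a i then 1 - ε else ε)
                  else (if a i then δ else 1 - δ))) ∂(μ t)) →
          ∀ (S : Finset ℤ) (a : ℤ → Bool),
            Filter.Tendsto (fun t => (μ t).real {y : ℤ → Bool | ∀ i ∈ S, y i = a i})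
              Filter.atTop (nhds (ν.real {y : ℤ → Bool | ∀ i ∈ S, y i = a i})) := by
  intro N c p hp hN ε δ hε hδ h1 h20
  rw [hN]
  exact Pool.Agent.MJ6.ergodic_ap c p hp ε δ hε hδ h1 h20

end Pool.Agent.Results.MP_101c18_pr.FivePercentNoise
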