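import Pool.Agent.T3M.Fin2

/-! For the neighbourhoods formed by three equally spaced integers (such as the nearest neighbour
rule) the noisy majority voting is ergodic for all small and nearly symmetric noise, in particular
for equal noise rates `ε = δ ≤ c`, down to zero noise. The conclusion is the one of the frozen
statement, word for word. -/

namespace Pool.Agent.Results.MP_101c18_pr.SmallSymmetricNoise

theorem result :
    ∃ κ : ℝ, 0 < κ ∧ ∀ (N : Finset ℤ) (c p : ℤ), 0 < p → N = {c - p, c, c + p} →
      ∀ ε δ : ℝ, 0 < ε → 0 < δ → max ε δ ≤ κ → |ε - δ| ≤ κ * (max ε δ) ^ (3 / 2 : ℝ) →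
      ∃ ν : MeasureTheory.Measure (ℤ → Bool), MeasureTheory.IsProbabilityMeasure ν ∧
        ∀ μ : ℕ → MeasureTheory.Measure (ℤ → Bool),
          (∀ t, MeasureTheory.IsProbabilityMeasure (μ t)) →
          (∀ (t : ℕ) (S : Finset ℤ) (a : ℤ → Bool),
            (μ (t + 1)).real {y : ℤ → Bool | ∀ i ∈ S, y i = a i} =
              ∫ x, (∏ i ∈ S,
                (if N.card < 2 * (N.filter (fun j => x (i + j) = true)).card
                  then (if a i then 1 - ε else ε)
                  else (if a i then δ else 1 - δ))) ∂(μ t)) →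
          ∀ (S : Finset ℤ) (a : ℤ → Bool),
            Filter.Tendsto (fun t => (μ t).real {y : ℤ → Bool | ∀ i ∈ S, y i = a i})
              Filter.atTop (nhds (ν.real {y : ℤ → Bool | ∀ i ∈ S, y i = a i})) := by
  obtain ⟨κ, hκ, h⟩ := Pool.Agent.T3M.fin_main
  refine ⟨κ, hκ, ?_⟩
  intro N c p hp hN ε δ hε hδ h1 h2
  rw [hN]
  exact h c p hp ε δ hε hδ h1 h2

end Pool.Agent.Results.MP_101c18_pr.SmallSymmetricNoise
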