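import Pool.Agent.Helper55.Vote.Final

/-! For every odd neighbourhood the noisy majority voting is ergodic when one of the two noise
rates is at most a constant (depending on the neighbourhood only) times the other one, however
small the noise is. The conclusion is the one of the frozen statement, word for word. -/

namespace Pool.Agent.Results.MP_101c18_pr.StrongBias

theorem result :
    ∀ (N : Finset ℤ), Odd N.card → ∃ κ : ℝ, 0 < κ ∧ ∀ ε δ : ℝ, 0 < ε → 0 < δ → ε + δ ≤ 1 →
      (ε ≤ κ * δ ∨ δ ≤ κ * ε) →
      ∃ ν : MeasureTheory.Measure (ℤ → Bool), MeasureTheory.IsProbabilityMeasure ν ∧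
        ∀ μ : ℕ → MeasureTheory.Measure (ℤ → Bool),
          (∀ t, MeasureTheory.IsProbabilityMeasure (μ t)) →
          (∀ (t : ℕ) (S : Finset ℤ) (a : ℤ → Bool),
            (μ (t + 1)).real {y : ℤ → Bool | ∀ i ∈ S, y i = a i} =
              ∫ x, (∏ i ∈ S,
                (if N.card < 2 * (N.filter (fun j => x (i + j) = true)).card
                  then (if a i then 1 - ε else ε)
                  else (if a i then δ else 1 - δ))) ∂(μ t)) →
          ∀ (S : Finset ℤ) (a : ℤ → Bool),
            Filter.Tendsto (fun t => (μ t).real {y : ℤ → Bool | ∀ i ∈ S, y i = a i})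
              Filter.atTop (nhds (ν.real {y : ℤ → Bool | ∀ i ∈ S, y i = a i})) :=
  fun N hN => Pool.Agent.Helper55.Vote.strong_bias N hN

end Pool.Agent.Results.MP_101c18_pr.StrongBias
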